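import Pool.Agent.W23.SG.All

/-!
# Almost primes `a + q d` with `q` in an arbitrary set of primes, for several pairs at once

Let `Q` be an ARBITRARY set of primes `q ≤ X` with `|Q| ≥ X ^ (1 - η)`. Every set `H` of at
least `C (1 + X / (|Q| log X))` coprime pairs `(a, d)` with `|a| ≤ X ^ (4/3)`,
`1 ≤ d ≤ X ^ (1/3)` (for a set `Q` of positive relative density: every set of at least `C'`
pairs) contains `k` pairs for which, SIMULTANEOUSLY, the number `a + q d` has at most three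
prime factors above `X ^ ε`, all of them above `X ^ (1/8)`, for at least `c ^ k |Q|` of the
primes `q ∈ Q`.

The case `k = 1` is the theorem `Pool.Agent.W23.SG.linear_forms` (library of the starting
repository, helper23 and team): all but at most `C X / (|Q| log X)` pairs are good. Since it
holds for arbitrary sets, it can be applied again to the primes which survive.
-/

namespace Pool.Agent.Results.MP_8bf9c2_nt.ArbitraryPrimeSets

open Finset Filter Topology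
open scoped Classical

/-- the coprime pairs `(a, d)` with `|a| ≤ X ^ (4/3)` and `1 ≤ d ≤ X ^ (1/3)` -/
def Pair (X : ℕ) (L : ℤ × ℕ) : Prop :=
  Int.gcd L.1 L.2 = 1 ∧ |(L.1 : ℝ)| ≤ (X : ℝ) ^ (4 / 3 : ℝ) ∧ 1 ≤ L.2 ∧
    (L.2 : ℝ) ≤ (X : ℝ) ^ (1 / 3 : ℝ)

/-- `a + q d` is nonzero, and it is the product of a number `m` composed of primes below
`X ^ ε` and of a number `s` which has at most three prime factors, all of them at least
`X ^ (1/8)` -/
def Good (ε : ℝ) (X : ℕ) (L : ℤ × ℕ) (q : ℕ) : Prop :=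
  L.1 + L.2 * q ≠ 0 ∧ ∃ m s : ℕ, (L.1 + L.2 * q).natAbs = m * s ∧
    (∀ l : ℕ, l.Prime → l ∣ m → (l : ℝ) < (X : ℝ) ^ ε) ∧
    s.primeFactorsList.length ≤ 3 ∧ ∀ l ∈ s.primeFactors, (X : ℝ) ^ (1 / 8 : ℝ) ≤ l

lemma card_le_of (X : ℕ) (Q : Finset ℕ) (hQ : ∀ q ∈ Q, q.Prime ∧ q ≤ X) :
    (Q.card : ℝ) ≤ X := by
  have h : Q ⊆ Icc 1 X := fun p hp => mem_Icc.2 ⟨(hQ p hp).1.one_le, (hQ p hp).2⟩
  have := card_le_card h
  rw [Nat.card_Icc] at this
  exact_mod_cast (by omega : Q.card ≤ X)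

/-- the statement on one form, for subsets of a set of forms -/
def OneForm (ε c C₁ η₀ : ℝ) : Prop :=
  ∀ X : ℕ, 2 ≤ X → ∀ Q : Finset ℕ, (∀ q ∈ Q, q.Prime ∧ q ≤ X) → (X : ℝ) ^ (1 - η₀) ≤ Q.card →
    ∀ H : Finset (ℤ × ℕ), (∀ L ∈ H, Pair X L) →
    ((H.filter (fun L => ((Q.filter (fun q => Good ε X L q)).card : ℝ) < c * Q.card)).card : ℝ)
      ≤ C₁ * (X / (Q.card * Real.log X))

lemma one_form (ε : ℝ) (hε : 0 < ε) :
    ∃ c C₁ η₀ : ℝ, 0 < c ∧ 0 ≤ C₁ ∧ 0 < η₀ ∧ OneForm ε c C₁ η₀ := by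
  obtain ⟨c, C₀, η₀, hc, hη₀, hmain⟩ := Pool.Agent.W23.SG.linear_forms ε hε
  refine ⟨c, max C₀ 0, η₀, hc, le_max_right _ _, hη₀, ?_⟩
  intro X hX Q hQ hcard H hH
  have hX1 : (1 : ℝ) < X := by exact_mod_cast (by omega : 1 < X)
  have hlog : 0 < Real.log X := Real.log_pos hX1
  refine le_trans (hmain X hX Q hQ hcard _ ?_)
    (mul_le_mul_of_nonneg_right (le_max_left _ _) (by positivity))
  intro L hL
  obtain ⟨hLH, hlt⟩ := mem_filter.1 hL
  obtain ⟨h1, h2, h3, h4⟩ := hH L hLH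
  refine ⟨h1, h2, h3, h4, lt_of_le_of_lt (le_of_eq ?_) hlt⟩
  congr

/-- for large `X`, removing a proportion from a set only costs a change of `η` -/
lemma threshold (c η η' : ℝ) (hc : 0 < c) (h : η < η') : ∃ X₀ : ℕ, ∀ X : ℕ, X₀ ≤ X → 2 ≤ X →
    ∀ a b : ℝ, (X : ℝ) ^ (1 - η) ≤ a → c * a ≤ b → (X : ℝ) ^ (1 - η') ≤ b := by
  have hev : ∀ᶠ X : ℕ in atTop, c⁻¹ ≤ (X : ℝ) ^ (η' - η) :=
    ((tendsto_rpow_atTop (by linarith)).comp tendsto_natCast_atTop_atTop).eventually_ge_atTop _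
  obtain ⟨X₀, hX₀⟩ := eventually_atTop.1 hev
  refine ⟨X₀, fun X hXX hX a b ha hb => le_trans ?_ hb⟩
  have hX0 : (0 : ℝ) < X := by exact_mod_cast (by omega : 0 < X)
  have h8 : (X : ℝ) ^ (1 - η) = (X : ℝ) ^ (1 - η') * (X : ℝ) ^ (η' - η) := by
    rw [← Real.rpow_add hX0]; congr 1; ring
  have hX' := hX₀ X hXX
  calc (X : ℝ) ^ (1 - η') = c * ((X : ℝ) ^ (1 - η') * c⁻¹) := by field_simp
    _ ≤ c * ((X : ℝ) ^ (1 - η') * (X : ℝ) ^ (η' - η)) := by gcongr
    _ = c * (X : ℝ) ^ (1 - η) := by rw [h8]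
    _ ≤ c * a := by gcongr

/-- the number of pairs is bounded in terms of `X` -/
lemma card_pairs (X : ℕ) (hX : 2 ≤ X) (H : Finset (ℤ × ℕ)) (hH : ∀ L ∈ H, Pair X L) :
    (H.card : ℝ) ≤ 3 * X ^ 3 := by
  have hX1 : (1 : ℝ) ≤ X := by exact_mod_cast (by omega : 1 ≤ X)
  have hsub : H ⊆ (Icc (-(X ^ 2 : ℤ)) (X ^ 2)) ×ˢ (Icc 1 X) := by
    intro L hL
    obtain ⟨-, h2, h3, h4⟩ := hH L hL
    have h5 : (X : ℝ) ^ (4 / 3 : ℝ) ≤ (X : ℝ) ^ (2 : ℝ) :=
      Real.rpow_le_rpow_of_exponent_le hX1 (by norm_num)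
    have h6 : (X : ℝ) ^ (1 / 3 : ℝ) ≤ (X : ℝ) ^ (1 : ℝ) :=
      Real.rpow_le_rpow_of_exponent_le hX1 (by norm_num)
    rw [Real.rpow_two] at h5
    rw [Real.rpow_one] at h6
    have h7 : |(L.1 : ℝ)| ≤ (X : ℝ) ^ 2 := h2.trans h5
    have h8 : (L.2 : ℝ) ≤ X := h4.trans h6
    rw [mem_product, mem_Icc, mem_Icc]
    have h9 : |L.1| ≤ (X : ℤ) ^ 2 := by exact_mod_cast h7
    exact ⟨abs_le.1 h9, h3, by exact_mod_cast h8⟩
  have h1 := card_le_card hsub
  rw [card_product, Int.card_Icc, Nat.card_Icc] at h1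
  have h2 : (X ^ 2 + 1 - -(X ^ 2) : ℤ).toNat = 2 * X ^ 2 + 1 := by
    have : (X ^ 2 + 1 - -(X ^ 2) : ℤ) = ((2 * X ^ 2 + 1 : ℕ) : ℤ) := by push_cast; ring
    rw [this, Int.toNat_natCast]
  rw [h2] at h1
  have h3 : (2 * X ^ 2 + 1) * (X + 1 - 1) ≤ 3 * X ^ 3 := by
    rw [Nat.add_sub_cancel]
    have : 1 ≤ X ^ 2 := Nat.one_le_pow _ _ (by omega)
    calc (2 * X ^ 2 + 1) * X ≤ (2 * X ^ 2 + X ^ 2) * X := Nat.mul_le_mul_right _ (by omega)
      _ = 3 * X ^ 3 := by ring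
  exact_mod_cast h1.trans h3

theorem subset_of {ε c C₁ η₀ : ℝ} (hcpos : 0 < c) (hC₁ : 0 ≤ C₁)
    (hone : OneForm ε c C₁ η₀) : ∀ k : ℕ, ∀ η : ℝ, η < η₀ → ∃ C : ℝ, 0 ≤ C ∧
      ∀ X : ℕ, 2 ≤ X → ∀ Q : Finset ℕ, (∀ q ∈ Q, q.Prime ∧ q ≤ X) →
        (X : ℝ) ^ (1 - η) ≤ Q.card → ∀ H : Finset (ℤ × ℕ), (∀ L ∈ H, Pair X L) →
        C * (1 + X / (Q.card * Real.log X)) ≤ H.card →
        ∃ S ⊆ H, S.card = k ∧
          c ^ k * Q.card ≤ (Q.filter (fun q => ∀ L ∈ S, Good ε X L q)).card := by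
  intro k
  induction k with
  | zero =>
    intro η _
    refine ⟨0, le_rfl, fun X _ Q _ _ H _ _ => ⟨∅, empty_subset _, rfl, ?_⟩⟩
    simp
  | succ k ih =>
    intro η hη
    set η' := (η + η₀) / 2 with hη'
    have hηη' : η < η' := by rw [hη']; linarith
    obtain ⟨C', hC', hk⟩ := ih η' (by rw [hη']; linarith)
    obtain ⟨X₀, hX₀⟩ := threshold c η η' hcpos hηη'
    refine ⟨C₁ + C' * (1 + 1 / c) + 1 + 3 * X₀ ^ 3, by positivity,
      fun X hX Q hQ hcard H hH hHc => ?_⟩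
    have hX1 : (1 : ℝ) ≤ X := by exact_mod_cast (by omega : 1 ≤ X)
    have hX0 : (0 : ℝ) < X := by linarith
    have hlog : 0 < Real.log X := Real.log_pos (by exact_mod_cast (by omega : 1 < X))
    have hQpos : (0 : ℝ) < Q.card := lt_of_lt_of_le (Real.rpow_pos_of_pos hX0 _) hcard
    set R := X / (Q.card * Real.log X) with hR
    have hR0 : 0 < R := by positivity
    by_cases hXX : X < X₀
    · exfalso
      have h1 := card_pairs X hX H hH
      have h2 : (X : ℝ) ^ 3 ≤ (X₀ : ℝ) ^ 3 := by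
        have : (X : ℝ) ≤ X₀ := by exact_mod_cast hXX.le
        gcongr
      have h3 : (1 + 3 * X₀ ^ 3 : ℝ) ≤ (C₁ + C' * (1 + 1 / c) + 1 + 3 * X₀ ^ 3) * (1 + R) := by
        have h0 : (0 : ℝ) ≤ C₁ + C' * (1 + 1 / c) := by positivity
        have h4 : (0 : ℝ) ≤ (C₁ + C' * (1 + 1 / c)) * (1 + R) := by positivity
        have h5 : (0 : ℝ) ≤ (1 + 3 * X₀ ^ 3) * R := by positivity
        linarith
      linarith
    · push Not at hXX
      set E := H.filter (fun L => ((Q.filter (fun q => Good ε X L q)).card : ℝ) <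
        c * Q.card) with hE
      have hEc : (E.card : ℝ) ≤ C₁ * R := hone X hX Q hQ
          ((Real.rpow_le_rpow_of_exponent_le hX1 (by linarith)).trans hcard) H hH
      have hlt : E.card < H.card := by
        have h1 : (E.card : ℝ) < H.card := by
          refine lt_of_lt_of_le ?_ hHc
          have h4 : (0 : ℝ) ≤ C' * (1 + 1 / c) * (1 + R) := by positivity
          have h5 : (0 : ℝ) ≤ 3 * X₀ ^ 3 * (1 + R) := by positivity
          linarith
        exact_mod_cast h1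
      obtain ⟨h₀, hh₀, hh₀E⟩ := exists_mem_notMem_of_card_lt_card hlt
      set Q' := Q.filter (fun q => Good ε X h₀ q) with hQ'
      have hQ'c : c * Q.card ≤ Q'.card := by
        by_contra hcon
        exact hh₀E (mem_filter.2 ⟨hh₀, not_le.1 hcon⟩)
      have hQ'pos : (0 : ℝ) < Q'.card := lt_of_lt_of_le (by positivity) hQ'c
      obtain ⟨S, hS, hSk, hSc⟩ := hk X hX Q' (fun p hp => hQ p (mem_filter.1 hp).1)
        (hX₀ X hXX hX _ _ hcard hQ'c) (H.erase h₀)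
        (fun L hL => hH L ((erase_subset _ _) hL)) (by
          have h1 : ((H.erase h₀).card : ℝ) = H.card - 1 := by
            rw [card_erase_of_mem hh₀, Nat.cast_sub (card_pos.2 ⟨h₀, hh₀⟩), Nat.cast_one]
          rw [h1]
          have h2 : X / (Q'.card * Real.log X) ≤ 1 / c * R := by
            calc X / (Q'.card * Real.log X) ≤ X / (c * Q.card * Real.log X) := by gcongr
              _ = 1 / c * R := by rw [hR]; field_simp
          have h3 : C' * (1 + X / (Q'.card * Real.log X)) ≤ C' * (1 + 1 / c * R) := by gcongr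
          have h4 : C' * (1 + 1 / c * R) ≤ C' * (1 + 1 / c) * (1 + R) := by
            have : C' * (1 + 1 / c) * (1 + R) - C' * (1 + 1 / c * R) =
                C' * (1 / c + R) := by ring
            have h5 : 0 ≤ C' * (1 / c + R) := by positivity
            linarith
          have h6 : (0 : ℝ) ≤ C₁ * (1 + R) := by positivity
          have h7 : (0 : ℝ) ≤ 3 * X₀ ^ 3 * (1 + R) := by positivity
          linarith)
      refine ⟨insert h₀ S, ?_, ?_, ?_⟩
      · intro x hx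
        rcases mem_insert.1 hx with rfl | hx
        · exact hh₀
        · exact (erase_subset _ _) (hS hx)
      · rw [card_insert_of_notMem (fun h => notMem_erase h₀ H (hS h)), hSk]
      · have hset : Q'.filter (fun q => ∀ L ∈ S, Good ε X L q) =
            Q.filter (fun q => ∀ L ∈ insert h₀ S, Good ε X L q) := by
          ext q
          simp only [hQ', mem_filter, forall_mem_insert, and_assoc]
        rw [← hset, pow_succ, mul_assoc]
        exact (mul_le_mul_of_nonneg_left hQ'c (by positivity)).trans hSc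

/-- **Almost primes `a + q d`, `q` in an arbitrary set of primes.** For every `ε > 0` there
are `c, η > 0` such that for every `k` there is `C` with the following property, for all
`X ≥ 2` and ALL sets `Q` of primes `q ≤ X` with at least `X ^ (1 - η)` members. Every set `H`
of at least `C (1 + X / (|Q| log X))` coprime pairs `(a, d)` with `|a| ≤ X ^ (4/3)` and
`1 ≤ d ≤ X ^ (1/3)` contains `k` pairs such that for at least `c ^ k |Q|` of the primes
`q ∈ Q` the `k` numbers `a + q d` are all of the form `m s`, with `m` composed of primes below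
`X ^ ε` and `s` with at most three prime factors, all of them at least `X ^ (1/8)`. -/
theorem result (ε : ℝ) (hε : 0 < ε) :
    ∃ c η : ℝ, 0 < c ∧ 0 < η ∧ ∀ k : ℕ, ∃ C : ℝ,
      ∀ X : ℕ, 2 ≤ X → ∀ Q : Finset ℕ, (∀ q ∈ Q, q.Prime ∧ q ≤ X) →
        (X : ℝ) ^ (1 - η) ≤ Q.card →
        ∀ H : Finset (ℤ × ℕ), (∀ L ∈ H, Pair X L) →
          C * (1 + X / (Q.card * Real.log X)) ≤ H.card →
          ∃ S ⊆ H, S.card = k ∧
            c ^ k * Q.card ≤ (Q.filter (fun q => ∀ L ∈ S, Good ε X L q)).card := by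
  obtain ⟨c, C₁, η₀, hc, hC₁, hη₀, hone⟩ := one_form ε hε
  refine ⟨c, η₀ / 2, hc, by linarith, fun k => ?_⟩
  obtain ⟨C, -, h⟩ := subset_of hc hC₁ hone k (η₀ / 2) (by linarith)
  exact ⟨C, h⟩

end Pool.Agent.Results.MP_8bf9c2_nt.ArbitraryPrimeSets
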