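import Pool.Agent.TH899.UG.OGm

/-!
# More than one half of the iterates of `x ↦ a + d x`

The `j`-th iterate of `x ↦ a + d x` is `x ↦ a (1 + d + ... + d ^ (j - 1)) + d ^ j x`. There are absolute
constants `δ > 0` and `J` such that for all coprime `a ≠ 0`, `d ≥ 2` there is `M` such that for EVERY
multiple `N` of `M` there is `L` such that among any `T ≥ L` consecutive multiples `j` of `N` at least
`(1/2 + δ) T` are such that for at least `x ^ (1 - η)` primes `q ≤ x`, for every `η > 0` and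
arbitrarily large `x`, the `j`-th iterate of `q` is prime and at most `J` of the earlier ones are.

Proof: the coloured Maynard-Tao theorem above one quarter for linear forms
(`Pool.Agent.TH899.UG.quarterC`): at least `T / (4 - c)` of `T` classes of forms are hit, and
helper142's theorem on sets of differences of many classes (`Pool.Agent.W142.TB.s_maiB`).
-/

set_option autoImplicit false

namespace Pool.Agent.Results.MP_8bf9c2_nt.MoreThanHalfOfIterates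

open Filter Finset

/-- the value at the prime `q` of the `j`-th iterate of `x ↦ a + d x` is a prime -/
def PrimeAt (a d : ℤ) (q j : ℕ) : Prop :=
  ∃ p : ℕ, p.Prime ∧ a * ∑ i ∈ range j, d ^ i + q * d ^ j = p

open Pool.Agent.H447R3.IT Pool.Agent.W218.OG Pool.Agent.H732R3.BigQ in
theorem primeAt_iff (a : ℤ) (D q j : ℕ) : PrimeAt a D q j ↔ Pr ((S D a)^[j] (q : ℤ)) := by
  have hB : ∀ j : ℕ, B D a j = a * ∑ i ∈ range j, (D : ℤ) ^ i := by
    intro j
    induction j with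
    | zero => simp [B_zero]
    | succ j ih =>
      rw [B_succ, ih, Finset.sum_range_succ', Finset.mul_sum, Finset.mul_sum, mul_add,
        Finset.mul_sum]
      have h : ∀ i ∈ range j, (D : ℤ) * (a * (D : ℤ) ^ i) = a * (D : ℤ) ^ (i + 1) := by
        intro i _
        ring
      rw [Finset.sum_congr rfl h]
      ring
  rw [iter, hB j]
  unfold PrimeAt Pr
  constructor
  · rintro ⟨p, hp, h⟩
    have e : (D : ℤ) ^ j * q + a * ∑ i ∈ range j, (D : ℤ) ^ i = p := by rw [← h]; ring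
    rw [e]
    exact ⟨by exact_mod_cast hp.pos, Nat.prime_iff_prime_int.1 hp⟩
  · rintro ⟨h0, h1⟩
    obtain ⟨p, hp⟩ := Int.eq_ofNat_of_zero_le h0.le
    refine ⟨p, ?_, ?_⟩
    · rw [hp] at h1
      exact Nat.prime_iff_prime_int.2 h1
    · rw [← hp]; ring

theorem result : ∃ δ : ℝ, 0 < δ ∧ ∃ J : ℕ, ∀ a d : ℤ, 2 ≤ d → a ≠ 0 → Int.gcd a d = 1 →
    ∃ M : ℕ, 0 < M ∧ ∀ N : ℕ, 0 < N → M ∣ N → ∃ L : ℕ, ∀ T : ℕ, L ≤ T → ∀ u : ℕ,
      (1 / 2 + δ) * (T : ℝ) ≤ ({k : ℕ | u < k ∧ k ≤ u + T ∧ ∀ η : ℝ, 0 < η → ∃ᶠ x : ℝ in atTop,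
        x ^ (1 - η) ≤ ({q : ℕ | (q : ℝ) ≤ x ∧ q.Prime ∧ PrimeAt a d q (N * k) ∧
          {l : ℕ | 0 < l ∧ l < N * k ∧ PrimeAt a d q l}.ncard ≤ J}.ncard : ℝ)}.ncard : ℝ) := by
  obtain ⟨δ, hδ, J, h⟩ := Pool.Agent.TH899.UG.OG.generalB
  refine ⟨δ, hδ, J, ?_⟩
  intro a d hd ha hg
  obtain ⟨D, rfl⟩ := Int.eq_ofNat_of_zero_le (by omega : 0 ≤ d)
  have hD : 2 ≤ D := by exact_mod_cast hd
  obtain ⟨M', hM', h2⟩ := h D a (D - 1) hD ha (Int.isCoprime_iff_gcd_eq_one.2 hg) (by omega)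
    (fun p _ hp => Dvd.dvd.mul_left (by exact_mod_cast hp) a)
  have hD1 : 0 < D - 1 := by omega
  refine ⟨(D - 1) * M', Nat.mul_pos hD1 hM', fun N hN hdv => ?_⟩
  obtain ⟨t, rfl⟩ := hdv
  have ht : 0 < t := Nat.pos_of_ne_zero (by rintro rfl; simp at hN)
  obtain ⟨L, hL⟩ := h2 (M' * t) (Nat.mul_pos hM' ht) (dvd_mul_right _ _)
  refine ⟨L, fun T hT u => (hL T hT u).trans ?_⟩
  rw [Nat.cast_le]
  refine Set.ncard_le_ncard ?_ ((Set.finite_Ioc u (u + T)).subset fun k hk => ⟨hk.1, hk.2.1⟩)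
  rintro k ⟨hk1, hk2, hk3⟩
  refine ⟨hk1, hk2, Pool.Agent.W218.OG.big_count (Pool.Agent.H732R3.BigQ.Big.mono ?_ hk3)⟩
  rintro q ⟨hq, hq1, hq2⟩
  have e1 : (D - 1) * (M' * t * k) = (D - 1) * M' * t * k := by ring
  rw [e1] at hq1 hq2
  refine ⟨hq, (primeAt_iff a D q _).2 hq1, le_trans (le_of_eq ?_) hq2⟩
  congr 1
  ext l
  simp only [Set.mem_ofPred_eq, primeAt_iff]

end Pool.Agent.Results.MP_8bf9c2_nt.MoreThanHalfOfIterates
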