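import Pool.Agent.W23.SG.All

/-!
# Almost prime values of `a + q d` for the primes `q` of an arbitrary (sparse) set

The question asks whether `a + q d` is prime for infinitely many primes `q`. Here the primes `q` are
restricted to an arbitrary set `Q` of primes up to `X`, which may be as small as `X ^ (1 - η)`, and
`a + q d` is a product `m s`, where `s` is a product of at most three primes `≥ X ^ (1 / 8)` and all
prime factors of `m` are smaller than `X ^ ε` (for an arbitrary set of primes such a factor `m` cannot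
be avoided). A positive proportion, at least `c`, of the `q ∈ Q` has this property, for all coprime
pairs `(a, d)` with `|a| ≤ X ^ (4 / 3)` and `d ≤ X ^ (1 / 3)`, except for at most
`C X / (|Q| log X)` of them. For sets of positive relative density this is a bounded number, and this
gives the second part: if `P` is a set of primes with at least `δ X / log X` elements up to `X` for
arbitrarily large `X`, then for all but at most `C / δ` pairs `(a, d)` there are infinitely many
`q ∈ P` such that `a + q d = m s` with at most three prime factors `≥ q ^ (1 / 8)` of `s` and with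
prime factors smaller than `q ^ ε` of `m`.

The first part is (up to the form of the statement) the theorem `linear_forms` of the starting file
`Pool/Agent/W23/SG/All.lean`, which had not been handed in. It rests on a Bessel inequality for the
discrepancies of arbitrary functions on the primes in residue classes to rough moduli beyond the
square root, and on the weighted sieve.
-/

set_option autoImplicit false

namespace Pool.Agent.Results.MP_8bf9c2_nt.SparseSetsOfPrimes

open Finset Filter Pool.Agent.W23.SG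

/-- `n` is, up to sign, a product `m s`, where all prime factors of `m` are smaller than `y ^ ε` and
`s` has at most three prime factors (with multiplicity), all of them at least `y ^ (1 / 8)`. -/
def AlmostPrime (ε y : ℝ) (n : ℤ) : Prop :=
  n ≠ 0 ∧ ∃ m s : ℕ, n.natAbs = m * s ∧ (∀ l : ℕ, l.Prime → l ∣ m → (l : ℝ) < y ^ ε) ∧
    s.primeFactorsList.length ≤ 3 ∧ ∀ l ∈ s.primeFactors, y ^ (1 / 8 : ℝ) ≤ l

open Classical in
/-- Almost prime values of linear forms at the primes of a sparse set. -/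
theorem result (ε : ℝ) (hε : 0 < ε) :
    ∃ c C η : ℝ, 0 < c ∧ 0 < η ∧
    (∀ X : ℕ, 2 ≤ X → ∀ Q : Finset ℕ, (∀ q ∈ Q, q.Prime ∧ q ≤ X) → (X : ℝ) ^ (1 - η) ≤ Q.card →
      {L : ℤ × ℕ | Int.gcd L.1 L.2 = 1 ∧ 1 ≤ L.2 ∧ |(L.1 : ℝ)| ≤ (X : ℝ) ^ (4 / 3 : ℝ) ∧
        (L.2 : ℝ) ≤ (X : ℝ) ^ (1 / 3 : ℝ) ∧
        ((Q.filter (fun q : ℕ => AlmostPrime ε X (L.1 + q * L.2))).card : ℝ) <
          c * Q.card}.Finite ∧
      ({L : ℤ × ℕ | Int.gcd L.1 L.2 = 1 ∧ 1 ≤ L.2 ∧ |(L.1 : ℝ)| ≤ (X : ℝ) ^ (4 / 3 : ℝ) ∧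
        (L.2 : ℝ) ≤ (X : ℝ) ^ (1 / 3 : ℝ) ∧
        ((Q.filter (fun q : ℕ => AlmostPrime ε X (L.1 + q * L.2))).card : ℝ) <
          c * Q.card}.ncard : ℝ) ≤ C * (X / (Q.card * Real.log X))) ∧
    (∀ (P : Set ℕ) (δ : ℝ), 0 < δ → (∀ p ∈ P, p.Prime) →
      (∃ᶠ X : ℕ in atTop, δ * X / Real.log X ≤ ({p : ℕ | p ∈ P ∧ p ≤ X}.ncard : ℝ)) →
      {L : ℤ × ℕ | Int.gcd L.1 L.2 = 1 ∧ 1 ≤ L.2 ∧
        {q : ℕ | q ∈ P ∧ AlmostPrime ε q (L.1 + q * L.2)}.Finite}.Finite ∧
      ({L : ℤ × ℕ | Int.gcd L.1 L.2 = 1 ∧ 1 ≤ L.2 ∧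
        {q : ℕ | q ∈ P ∧ AlmostPrime ε q (L.1 + q * L.2)}.Finite}.ncard : ℝ) ≤ C / δ) := by
  obtain ⟨c, C, η, hc, hη, H⟩ := linear_forms (ε / 2) (by positivity)
  have hcm : ∀ (L : ℤ × ℕ) (q : ℕ), L.1 + (q : ℤ) * (L.2 : ℤ) = L.1 + (L.2 : ℤ) * (q : ℤ) :=
    fun _ _ => by ring
  refine ⟨c, |C|, η, hc, hη, ?_, ?_⟩
  · intro X hX Q hQ hcard
    set S := {L : ℤ × ℕ | Int.gcd L.1 L.2 = 1 ∧ 1 ≤ L.2 ∧ |(L.1 : ℝ)| ≤ (X : ℝ) ^ (4 / 3 : ℝ) ∧
        (L.2 : ℝ) ≤ (X : ℝ) ^ (1 / 3 : ℝ) ∧
        ((Q.filter (fun q : ℕ => AlmostPrime ε X (L.1 + q * L.2))).card : ℝ) <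
          c * Q.card} with hS
    have hX1 : (1 : ℝ) ≤ X := by exact_mod_cast (by omega : 1 ≤ X)
    have hfin : S.Finite := by
      obtain ⟨N, hN⟩ := exists_nat_ge ((X : ℝ) ^ (4 / 3 : ℝ))
      obtain ⟨M, hM⟩ := exists_nat_ge ((X : ℝ) ^ (1 / 3 : ℝ))
      refine ((Set.finite_Icc (-(N : ℤ)) N).prod (Set.finite_Icc 0 M)).subset ?_
      rintro ⟨a, d⟩ ⟨-, -, h1, h2, -⟩
      have h3 : |(a : ℝ)| ≤ N := h1.trans hN
      have h4 : (d : ℝ) ≤ M := h2.trans hM
      rw [abs_le] at h3
      refine ⟨⟨?_, ?_⟩, ⟨Nat.zero_le _, by exact_mod_cast h4⟩⟩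
      · show -(N : ℤ) ≤ a
        exact_mod_cast h3.1
      · show a ≤ N
        exact_mod_cast h3.2
    refine ⟨hfin, ?_⟩
    have h1 := H X hX Q hQ hcard hfin.toFinset (by
      intro L hL
      rw [Set.Finite.mem_toFinset] at hL
      obtain ⟨h1, h2, h3, h4, h5⟩ := hL
      refine ⟨h1, h3, h2, h4, lt_of_le_of_lt ?_ h5⟩
      exact Nat.cast_le.2 (Finset.card_le_card (Finset.monotone_filter_right _ fun q _ hq => by
        obtain ⟨h6, m, s, h7, h8, h9, h10⟩ := hq
        refine ⟨by rw [hcm]; exact h6, m, s, by rw [hcm]; exact h7, fun l hl hlm =>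
          (h8 l hl hlm).trans_le (Real.rpow_le_rpow_of_exponent_le hX1 (by linarith)), h9, h10⟩)))
    rw [Set.ncard_eq_toFinset_card _ hfin]
    refine h1.trans (mul_le_mul_of_nonneg_right (le_abs_self C) ?_)
    have : 0 ≤ Real.log X := Real.log_nonneg hX1
    positivity
  · intro P δ hδ hP hfreq
    set E := {L : ℤ × ℕ | Int.gcd L.1 L.2 = 1 ∧ 1 ≤ L.2 ∧
        {q : ℕ | q ∈ P ∧ AlmostPrime ε q (L.1 + q * L.2)}.Finite} with hE
    have key : ∀ F : Finset (ℤ × ℕ), (∀ L ∈ F, L ∈ E) → (F.card : ℝ) ≤ |C| / δ := by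
      intro F hF
      have hbd : ∃ q0 : ℕ, ∀ L ∈ F, ∀ q : ℕ, q ∈ P → AlmostPrime ε q (L.1 + q * L.2) → q < q0 := by
        have h1 : ({q : ℕ | ∃ L ∈ F, q ∈ P ∧ AlmostPrime ε q (L.1 + q * L.2)}).Finite := by
          have h2 : {q : ℕ | ∃ L ∈ F, q ∈ P ∧ AlmostPrime ε q (L.1 + q * L.2)} =
              ⋃ L ∈ F, {q : ℕ | q ∈ P ∧ AlmostPrime ε q (L.1 + q * L.2)} := by
            ext q
            simp only [Set.mem_ofPred_eq, Set.mem_iUnion, exists_prop]
          rw [h2]
          exact F.finite_toSet.biUnion fun L hL => (hF L hL).2.2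
        obtain ⟨b, hb⟩ := h1.bddAbove
        exact ⟨b + 1, fun L hL q hq hq2 => Nat.lt_succ_of_le (hb ⟨L, hL, hq, hq2⟩)⟩
      obtain ⟨q0, hq0⟩ := hbd
      -- eventual conditions
      have e1 : ∀ᶠ X : ℕ in atTop, (X : ℝ) ^ (1 - η) ≤ δ * X / Real.log X := by
        have h1 : ∀ᶠ x : ℝ in atTop, ‖Real.log x‖ ≤ δ * ‖x ^ η‖ :=
          (isLittleO_log_rpow_atTop hη).bound hδ
        filter_upwards [tendsto_natCast_atTop_atTop.eventually h1, eventually_ge_atTop 3] with X hX hX3
        have hX0 : (0 : ℝ) < X := by positivity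
        have hlog : 0 < Real.log X := Real.log_pos (by exact_mod_cast (by omega : 1 < X))
        rw [Real.norm_of_nonneg hlog.le, Real.norm_of_nonneg (by positivity)] at hX
        rw [le_div_iff₀ hlog, Real.rpow_sub hX0, Real.rpow_one]
        have h3 : (0 : ℝ) < (X : ℝ) ^ η := by positivity
        rw [div_mul_eq_mul_div, div_le_iff₀ h3]
        nlinarith
      have e2 : ∀ᶠ X : ℕ in atTop, (q0 : ℝ) + Real.sqrt X + 2 < c * (δ * X / Real.log X) := by
        have h1 : ∀ᶠ x : ℝ in atTop, ‖Real.log x‖ ≤ (c * δ / 2) * ‖x ^ (1 / 4 : ℝ)‖ :=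
          (isLittleO_log_rpow_atTop (by norm_num)).bound (by positivity)
        have h2 : Tendsto (fun x : ℝ => x ^ (3 / 4 : ℝ) - x ^ (1 / 2 : ℝ)) atTop atTop := by
          have h3 : (fun x : ℝ => x ^ (1 / 2 : ℝ) * (x ^ (1 / 4 : ℝ) - 1)) =ᶠ[atTop]
              fun x : ℝ => x ^ (3 / 4 : ℝ) - x ^ (1 / 2 : ℝ) := by
            filter_upwards [eventually_gt_atTop 0] with x hx
            rw [mul_sub, ← Real.rpow_add hx, mul_one]
            norm_num
          refine Tendsto.congr' h3 ?_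
          exact (tendsto_rpow_atTop (by norm_num)).atTop_mul_atTop₀
            (tendsto_atTop_add_const_right _ _ (tendsto_rpow_atTop (by norm_num)))
        filter_upwards [tendsto_natCast_atTop_atTop.eventually h1,
          tendsto_natCast_atTop_atTop.eventually (h2.eventually_gt_atTop ((q0 : ℝ) + 2)),
          eventually_ge_atTop 3] with X hX hX2 hX3
        have hX0 : (0 : ℝ) < X := by positivity
        have hlog : 0 < Real.log X := Real.log_pos (by exact_mod_cast (by omega : 1 < X))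
        rw [Real.norm_of_nonneg hlog.le, Real.norm_of_nonneg (by positivity)] at hX
        have h5 : (X : ℝ) ^ (3 / 4 : ℝ) * (X : ℝ) ^ (1 / 4 : ℝ) = X := by
          rw [← Real.rpow_add hX0]
          norm_num
        have h6 : 0 < (X : ℝ) ^ (3 / 4 : ℝ) := by positivity
        have h7 : 0 < (X : ℝ) ^ (1 / 4 : ℝ) := by positivity
        rw [Real.sqrt_eq_rpow]
        have h8 : 2 * (X : ℝ) ^ (3 / 4 : ℝ) ≤ c * (δ * X / Real.log X) := by
          rw [mul_div_assoc', le_div_iff₀ hlog]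
          nlinarith [mul_le_mul_of_nonneg_left hX h6.le]
        linarith
      have e3 : ∀ᶠ X : ℕ in atTop, ∀ L ∈ F, |(L.1 : ℝ)| ≤ (X : ℝ) ^ (4 / 3 : ℝ) ∧
          (L.2 : ℝ) ≤ (X : ℝ) ^ (1 / 3 : ℝ) := by
        rw [Filter.eventually_all_finset]
        intro L _
        have t1 : Tendsto (fun X : ℕ => (X : ℝ) ^ (4 / 3 : ℝ)) atTop atTop :=
          (tendsto_rpow_atTop (by norm_num)).comp tendsto_natCast_atTop_atTop
        have t2 : Tendsto (fun X : ℕ => (X : ℝ) ^ (1 / 3 : ℝ)) atTop atTop :=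
          (tendsto_rpow_atTop (by norm_num)).comp tendsto_natCast_atTop_atTop
        exact (t1.eventually_ge_atTop _).and (t2.eventually_ge_atTop _)
      obtain ⟨X, hXf, h1, h2, h3, hX3⟩ := (hfreq.and_eventually
        (e1.and (e2.and (e3.and (eventually_ge_atTop 3))))).exists
      have hX0 : (0 : ℝ) < X := by positivity
      have hX1 : (1 : ℝ) ≤ X := by exact_mod_cast (by omega : 1 ≤ X)
      have hlog : 0 < Real.log X := Real.log_pos (by exact_mod_cast (by omega : 1 < X))
      have hPf : {p : ℕ | p ∈ P ∧ p ≤ X}.Finite := (Set.finite_Iic X).subset fun p hp => hp.2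
      set Q := hPf.toFinset with hQ
      have hQc : (Q.card : ℝ) = ({p : ℕ | p ∈ P ∧ p ≤ X}.ncard : ℝ) := by
        rw [Set.ncard_eq_toFinset_card _ hPf]
      rw [← hQc] at hXf
      have hQ0 : 0 < (Q.card : ℝ) := lt_of_lt_of_le (by positivity) hXf
      have h4 := H X (by omega) Q (fun q hq => by
        rw [hQ, Set.Finite.mem_toFinset] at hq
        exact ⟨hP q hq.1, hq.2⟩) (h1.trans hXf) F (by
        intro L hL
        refine ⟨(hF L hL).1, (h3 L hL).1, (hF L hL).2.1, (h3 L hL).2, ?_⟩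
        have h5 : ((Q.filter (fun q : ℕ => L.1 + L.2 * q ≠ 0 ∧
          ∃ m s : ℕ, (L.1 + L.2 * q).natAbs = m * s ∧
            (∀ l : ℕ, l.Prime → l ∣ m → (l : ℝ) < (X : ℝ) ^ (ε / 2)) ∧
            s.primeFactorsList.length ≤ 3 ∧
            ∀ l ∈ s.primeFactors, (X : ℝ) ^ (1 / 8 : ℝ) ≤ l)).card : ℝ) ≤
              (q0 : ℝ) + Real.sqrt X + 2 := by
          have h6 : (Q.filter (fun q : ℕ => L.1 + L.2 * q ≠ 0 ∧
              ∃ m s : ℕ, (L.1 + L.2 * q).natAbs = m * s ∧
              (∀ l : ℕ, l.Prime → l ∣ m → (l : ℝ) < (X : ℝ) ^ (ε / 2)) ∧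
              s.primeFactorsList.length ≤ 3 ∧
              ∀ l ∈ s.primeFactors, (X : ℝ) ^ (1 / 8 : ℝ) ≤ l)) ⊆
              range (q0 + Nat.sqrt X + 1) := by
            intro q hq
            rw [mem_filter, hQ, Set.Finite.mem_toFinset] at hq
            obtain ⟨⟨hqP, hqX⟩, h7, m, s, h8, h9, h10, h11⟩ := hq
            rw [Finset.mem_range]
            by_contra hcon
            rw [not_lt] at hcon
            have hqs : Nat.sqrt X < q := by omega
            have hqq : X < q * q := Nat.sqrt_lt.1 hqs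
            have hq1 : (1 : ℝ) ≤ q := by exact_mod_cast (hP q hqP).one_lt.le
            have g1 : (X : ℝ) ^ (ε / 2) ≤ (q : ℝ) ^ ε := by
              calc (X : ℝ) ^ (ε / 2) ≤ ((q : ℝ) * q) ^ (ε / 2) :=
                  Real.rpow_le_rpow hX0.le (by exact_mod_cast hqq.le) (by positivity)
                _ = (q : ℝ) ^ ε := by
                  rw [← pow_two, ← Real.rpow_natCast, ← Real.rpow_mul (by positivity)]
                  congr 1
                  push_cast
                  ring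
            have g2 : (q : ℝ) ^ (1 / 8 : ℝ) ≤ (X : ℝ) ^ (1 / 8 : ℝ) :=
              Real.rpow_le_rpow (by positivity) (by exact_mod_cast hqX) (by norm_num)
            have h12 := hq0 L hL q hqP ⟨by rw [hcm]; exact h7, m, s,
              by rw [hcm]; exact h8, fun l hl hlm => (h9 l hl hlm).trans_le g1, h10,
              fun l hl => le_trans g2 (h11 l hl)⟩
            omega
          have h7 := Finset.card_le_card h6
          rw [card_range] at h7
          have h8 : ((Nat.sqrt X : ℕ) : ℝ) ≤ Real.sqrt X := Real.nat_sqrt_le_real_sqrt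
          have h9 : ((q0 + Nat.sqrt X + 1 : ℕ) : ℝ) ≤ (q0 : ℝ) + Real.sqrt X + 2 := by
            push_cast
            linarith
          exact le_trans (by exact_mod_cast h7) h9
        exact lt_of_le_of_lt h5 (h2.trans_le (mul_le_mul_of_nonneg_left hXf hc.le)))
      refine h4.trans ?_
      have h5 : (X : ℝ) / (Q.card * Real.log X) ≤ 1 / δ := by
        rw [div_le_div_iff₀ (by positivity) hδ]
        rw [div_le_iff₀ hlog] at hXf
        linarith
      calc C * (X / (Q.card * Real.log X)) ≤ |C| * (X / (Q.card * Real.log X)) :=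
            mul_le_mul_of_nonneg_right (le_abs_self C) (by positivity)
        _ ≤ |C| * (1 / δ) := mul_le_mul_of_nonneg_left h5 (abs_nonneg C)
        _ = |C| / δ := by ring
    have hEf : E.Finite := by
      by_contra hinf
      obtain ⟨n, hn⟩ := exists_nat_gt (|C| / δ)
      obtain ⟨F, hF1, hF2⟩ := (Set.not_finite.1 hinf).exists_subset_card_eq n
      have := key F fun L hL => hF1 hL
      rw [hF2] at this
      linarith
    refine ⟨hEf, ?_⟩
    rw [Set.ncard_eq_toFinset_card _ hEf]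
    exact key _ fun L hL => by rwa [Set.Finite.mem_toFinset] at hL

end Pool.Agent.Results.MP_8bf9c2_nt.SparseSetsOfPrimes
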