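import Pool.Agent.TH935.TF9

/-!
# Primes `q` for which `a_1 + d_1 q, ..., a_k + d_k q` are all prime, for almost all vectors
`(a_1, ..., a_k)` from products of thin families
-/

set_option autoImplicit false

namespace Pool.Agent.Results.MP_8bf9c2_nt.ThinFamilies

open Finset Filter Topology

/-- The number of residue classes of `n` modulo `p` with `n (a 1 + d 1 n) ⋯ (a k + d k n) ≡ 0 (mod p)`. -/
def omega {k : ℕ} (d a : Fin k → ℤ) (p : ℕ) : ℕ :=
  ((range p).filter (fun n : ℕ => (p : ℤ) ∣ n * ∏ i, (a i + d i * (n : ℤ)))).card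

/-- The partial products `∏_{p ≤ z} (1 - ω(p) / p) / (1 - 1 / p) ^ (k + 1)` of the singular series of the
system `q, a 1 + d 1 q, ..., a k + d k q`. -/
noncomputable def eulerProd {k : ℕ} (d a : Fin k → ℤ) (z : ℕ) : ℝ :=
  ∏ p ∈ (Icc 1 z).filter Nat.Prime, (1 - (omega d a p : ℝ) / p) / (1 - 1 / (p : ℝ)) ^ (k + 1)

/-- The number of primes `q` with `y₁ < q ≤ y₂` such that `|a i + d i q|` is prime for every `i`. -/
def count {k : ℕ} (d a : Fin k → ℤ) (y₁ y₂ : ℕ) : ℕ :=
  ((Ioc y₁ y₂).filter (fun q : ℕ => q.Prime ∧ ∀ i, (a i + d i * (q : ℤ)).natAbs.Prime)).card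

/-- No two of the forms `n, a 1 + d 1 n, ..., a k + d k n` are equal up to sign, none of them is constant, and
their product has no fixed prime divisor. (For `k = 1` and `a ≠ 0` this says that `a` and `d` are relatively
prime, that `a d` is even and that `d ≠ 0`.) -/
def Admissible {k : ℕ} (d a : Fin k → ℤ) : Prop :=
  (∀ i, d i ≠ 0) ∧
  (∀ i, ¬ ((d i = 1 ∨ d i = -1) ∧ a i = 0)) ∧
  (∀ i j, i ≠ j → ¬ (d i = d j ∧ a i = a j) ∧ ¬ (d i = -d j ∧ a i = -a j)) ∧
  (∀ p : ℕ, p.Prime → ∃ n : ℤ, ¬ (p : ℤ) ∣ n * ∏ i, (a i + d i * n))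

/-- For all `d i` with `|d i| ≤ log ^ D N` for which the system `q, a 1 + d 1 q, ..., a k + d k q` is
admissible, its singular series converges to a positive number `c`, and for all `y₁ < y₂ ≤ B N` with
`y₂ - y₁ ≥ N / log ^ A N` the number of primes `q` with `y₁ < q ≤ y₂` such that all `|a i + d i q|` are prime
agrees with `c (y₂ - y₁) / log ^ (k + 1) N` up to a relative error of at most `ε`. -/
def Holds (ε : ℝ) (A B D N : ℕ) {k : ℕ} (a : Fin k → ℤ) : Prop :=
  ∀ d : Fin k → ℤ, (∀ i, |(d i : ℝ)| ≤ Real.log N ^ D) → Admissible d a →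
    ∃ c : ℝ, 0 < c ∧ Tendsto (eulerProd d a) atTop (𝓝 c) ∧
      ∀ y₁ y₂ : ℕ, y₁ < y₂ → y₂ ≤ B * N → (N : ℝ) / Real.log N ^ A ≤ (y₂ : ℝ) - y₁ →
        |(count d a y₁ y₂ : ℝ) - c * ((y₂ : ℝ) - y₁) / Real.log N ^ (k + 1)| ≤
          ε * (c * ((y₂ : ℝ) - y₁) / Real.log N ^ (k + 1))

/-- The additive energy of order `h` of a finite family of integers `v j`: the number of solutions of
`v (x 1) + ... + v (x h) = v (y 1) + ... + v (y h)`. -/
noncomputable def energy (h : ℕ) {ι : Type} [Fintype ι] (v : ι → ℤ) : ℕ :=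
  Nat.card {q : (Fin h → ι) × (Fin h → ι) // ∑ j, v (q.1 j) = ∑ j, v (q.2 j)}

/-- The number of representations of `t` as `v (x 1) + ... + v (x h)`. -/
noncomputable def reps (h : ℕ) {ι : Type} [Fintype ι] (v : ι → ℤ) (t : ℤ) : ℕ :=
  Nat.card {x : Fin h → ι // ∑ j, v (x j) = t}

open Classical in
/-- The number of the vectors `a = (v 1 (q 1), ..., v k (q k))`, `q i ∈ ι i`, for which `Holds` fails. -/
noncomputable def exceptions (ε : ℝ) (A B D N : ℕ) {k : ℕ} {ι : Fin k → Type} [∀ i, Fintype (ι i)]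
    (v : ∀ i, ι i → ℤ) : ℕ :=
  (univ.filter (fun q : ∀ i, ι i => ¬ Holds ε A B D N (fun i => v i (q i)))).card

open Pool.Agent.TH935.TF

lemma dvd_prod {k : ℕ} (d a : Fin k → ℤ) (p : ℕ) (hp : p.Prime) (n : ℤ) :
    (p : ℤ) ∣ n * ∏ i, (a i + d i * n) ↔ ∃ i, (p : ℤ) ∣ consA d i * n + consB a i := by
  have hpi := Nat.prime_iff_prime_int.1 hp
  have h := hpi.dvd_finsetProd_iff (S := univ) (fun i => a i + d i * n)
  rw [Fin.exists_fin_succ, consA_zero, consB_zero, one_mul, add_zero, hpi.dvd_mul, h]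
  apply or_congr Iff.rfl
  constructor
  · rintro ⟨i, _, hi⟩
    exact ⟨i, by rw [consA_succ, consB_succ, add_comm]; exact hi⟩
  · rintro ⟨i, hi⟩
    exact ⟨i, mem_univ _, by rw [consA_succ, consB_succ, add_comm] at hi; exact hi⟩

lemma omega_eq {k : ℕ} (d a : Fin k → ℤ) (p : ℕ) (hp : p.Prime) : omega d a p = om (consA d) (consB a) p := by
  unfold omega om
  congr 1
  apply filter_congr
  intro n _
  exact dvd_prod d a p hp n

lemma euler_eq {k : ℕ} (d a : Fin k → ℤ) : eulerProd d a = fun z => Gz (om (consA d) (consB a)) (k + 1) z := by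
  funext z
  unfold eulerProd Gz Fq Pool.Agent.H373R2.T7.pz
  apply prod_congr rfl
  intro p hp
  rw [omega_eq d a p (mem_filter.1 hp).2]

lemma adm_of {k : ℕ} (d a : Fin k → ℤ) (h : Admissible d a) : Adm (consA d) (consB a) := by
  intro p hp
  obtain ⟨n, hn⟩ := h.2.2.2 p hp
  refine ⟨n, fun i hi => hn ?_⟩
  exact (dvd_prod d a p hp n).2 ⟨i, hi⟩

lemma dist_of {k : ℕ} (d a : Fin k → ℤ) (h : Admissible d a) : Dist (consA d) (consB a) := by
  intro i j
  refine Fin.cases ?_ (fun i => ?_) i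
  · refine Fin.cases ?_ (fun j => ?_) j
    · intro h0
      exact absurd rfl h0
    · intro _
      rw [consA_zero, consB_zero, consA_succ, consB_succ]
      have h1 := h.2.1 j
      constructor
      · rintro ⟨e1, e2⟩
        exact h1 ⟨Or.inl e1.symm, e2.symm⟩
      · rintro ⟨e1, e2⟩
        exact h1 ⟨Or.inr (by omega), by omega⟩
  · refine Fin.cases ?_ (fun j => ?_) j
    · intro _
      rw [consA_zero, consB_zero, consA_succ, consB_succ]
      have h1 := h.2.1 i
      constructor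
      · rintro ⟨e1, e2⟩
        exact h1 ⟨Or.inl e1, e2⟩
      · rintro ⟨e1, e2⟩
        exact h1 ⟨Or.inr e1, by omega⟩
    · intro hij
      rw [consA_succ, consB_succ, consA_succ, consB_succ]
      exact h.2.2.1 i j (fun e => hij (by rw [e]))

lemma count_eq {k : ℕ} (d a : Fin k → ℤ) (y₁ y₂ : ℕ) : count d a y₁ y₂ = cn (consA d) (consB a) y₁ y₂ := by
  unfold count cn
  congr 1
  apply filter_congr
  intro n _
  rw [Fin.forall_fin_succ, consA_zero, consB_zero, one_mul, add_zero, Int.natAbs_natCast]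
  apply and_congr Iff.rfl
  apply forall_congr'
  intro i
  rw [consA_succ, consB_succ, add_comm]

lemma holds_of (ε : ℝ) (A B D N : ℕ) {k : ℕ} (a : Fin k → ℤ)
    (h : HW (consA : (Fin k → ℤ) → Fin (k + 1) → ℤ) (consB : (Fin k → ℤ) → Fin (k + 1) → ℤ) ε A B D N a) :
    Holds ε A B D N a := by
  intro d hdL hadm
  obtain ⟨S, hS0, hSt, hS⟩ := h d hadm.1 (fun i => by rw [Nat.cast_natAbs, Int.cast_abs]; exact hdL i)
    (adm_of d a hadm) (dist_of d a hadm)
  refine ⟨S, hS0, by rw [euler_eq]; exact hSt, fun y₁ y₂ h12 hy2 hΔ => ?_⟩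
  rw [count_eq]
  exact hS y₁ y₂ h12.le hy2 hΔ

theorem first (k h A B C D U : ℕ) (hk : 1 ≤ k) (ε : ℝ) (hε : 0 < ε) :
    ∃ N₀ : ℕ, ∀ N : ℕ, N₀ ≤ N → ∀ (ι : Fin k → Type) [∀ i, Fintype (ι i)] (v : ∀ i, ι i → ℤ),
      (∀ i j, |v i j| ≤ B * N) →
      (∀ i, (energy h (v i) : ℝ) * N ≤ Real.log N ^ C * (Fintype.card (ι i) : ℝ) ^ (2 * h)) →
      (exceptions ε A B D N v : ℝ) ≤ (∏ i, (Fintype.card (ι i) : ℝ)) / Real.log N ^ U := by
  classical
  obtain ⟨N₀, h0⟩ := transferP (k := k) h B C U (fun N a => Holds ε A B D N a) (by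
    obtain ⟨N₀, h1⟩ := fam_sys (sys_lam k hk) hk h A B C D U ε hε
    refine ⟨N₀, fun N hN x s hs hE 𝒮 hSx hS => h1 N hN x s hs hE 𝒮 hSx fun q hq hG => hS q hq ?_⟩
    exact holds_of ε A B D N _ hG)
  refine ⟨N₀, fun N hN ι _ v hv hE => ?_⟩
  unfold exceptions
  refine h0 N hN ι v hv hE _ ?_
  intro q hq
  rw [mem_filter] at hq
  exact hq.2

/-- Let `k ≥ 1`, `h`, `A`, `B`, `C`, `D`, `U` and `ε > 0` be fixed, and let `N` be large. For `i = 1, ..., k`
let `v i j`, `j ∈ ι i`, be an arbitrary finite family of integers with `|v i j| ≤ B N`.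

* Suppose that for every `i` the additive energy of order `h` of the `i`-th family is at most `log ^ C N`
  times `(#ι i) ^ (2 h) / N` (up to the power of the logarithm this is the least possible energy of a family
  with members in `[-B N, B N]`, and the family may have as few as `N ^ (1 / h)` members). Then for all
  vectors `(a 1, ..., a k)`, `a i` from the `i`-th family, with at most `(∏ #ι i) / log ^ U N` exceptions,
  the following holds simultaneously for all `d i` with `|d i| ≤ log ^ D N` such that the system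
  `q, a 1 + d 1 q, ..., a k + d k q` is admissible, and for all windows `y₁ < q ≤ y₂` with `y₂ ≤ B N` and
  `y₂ - y₁ ≥ N / log ^ A N`: the window contains `(1 + O(ε)) c (y₂ - y₁) / log ^ (k + 1) N` primes `q` such
  that `|a i + d i q|` is prime for all `i`, where `c > 0` is the singular series of the system.
* In particular this holds if for every `i` no integer has more than `log ^ C N` representations as a sum of
  `h` members of the `i`-th family, and `(#ι i) ^ h ≥ N / log ^ C N`. -/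
theorem result (k h A B C D U : ℕ) (hk : 1 ≤ k) (ε : ℝ) (hε : 0 < ε) :
    (∃ N₀ : ℕ, ∀ N : ℕ, N₀ ≤ N → ∀ (ι : Fin k → Type) [∀ i, Fintype (ι i)] (v : ∀ i, ι i → ℤ),
      (∀ i j, |v i j| ≤ B * N) →
      (∀ i, (energy h (v i) : ℝ) * N ≤ Real.log N ^ C * (Fintype.card (ι i) : ℝ) ^ (2 * h)) →
      (exceptions ε A B D N v : ℝ) ≤ (∏ i, (Fintype.card (ι i) : ℝ)) / Real.log N ^ U) ∧
    (∃ N₀ : ℕ, ∀ N : ℕ, N₀ ≤ N → ∀ (ι : Fin k → Type) [∀ i, Fintype (ι i)] (v : ∀ i, ι i → ℤ),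
      (∀ i j, |v i j| ≤ B * N) →
      (∀ i t, (reps h (v i) t : ℝ) ≤ Real.log N ^ C) →
      (∀ i, (N : ℝ) ≤ Real.log N ^ C * (Fintype.card (ι i) : ℝ) ^ h) →
      (exceptions ε A B D N v : ℝ) ≤ (∏ i, (Fintype.card (ι i) : ℝ)) / Real.log N ^ U) := by
  refine ⟨first k h A B C D U hk ε hε, ?_⟩
  obtain ⟨N₀, h0⟩ := first k h A B (2 * C) D U hk ε hε
  obtain ⟨N₁, h1⟩ := Pool.Agent.H373R2.T7.ev_L' 1
  refine ⟨N₀ + N₁, fun N hN ι _ v hv hJ hx => ?_⟩
  apply h0 N (by omega) ι v hv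
  have hL := h1 N (by omega)
  have hL0 : 0 ≤ Real.log N := by linarith
  intro i
  have h2 : (energy h (v i) : ℝ) ≤ (Fintype.card (ι i) : ℝ) ^ h * Real.log N ^ C :=
    Pool.Agent.TH935.GF.En_le h (v i) _ (hJ i)
  calc (energy h (v i) : ℝ) * N ≤ ((Fintype.card (ι i) : ℝ) ^ h * Real.log N ^ C) * (Real.log N ^ C * (Fintype.card (ι i) : ℝ) ^ h) :=
        mul_le_mul h2 (hx i) (Nat.cast_nonneg _) (by positivity)
    _ = Real.log N ^ (2 * C) * (Fintype.card (ι i) : ℝ) ^ (2 * h) := by ring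

end Pool.Agent.Results.MP_8bf9c2_nt.ThinFamilies
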